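import Pool.Agent.T9h30.BF.Spec2

/-!
# Pieces GRP and CRT of `Pool/Agent/T9h30/BF/Spec2.lean`
-/

set_option autoImplicit false

namespace Pool.Agent.T9h70.BF

/-- (GRP) -/
theorem grp : Pool.Agent.T9h30.BF.StGrp := by
  intro p N hp F _ _ _ h
  have := Fact.mk hp
  have hG : IsPGroup p (F ≃ₐ[ℚ] F) := fun t => ⟨N, h t⟩
  obtain ⟨k, hk⟩ := IsPGroup.iff_card.mp hG
  refine ⟨k, ?_⟩
  rw [← IsGalois.card_aut_eq_finrank ℚ F]
  exact hk

/-- (CRT) -/
theorem crt : Pool.Agent.T9h30.BF.StCrt := by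
  intro m n q hm h
  induction m using Nat.recOnMul with
  | zero => exact absurd hm (by simp)
  | one => exact ⟨0, Subsingleton.elim _ _⟩
  | prime l hl => exact h l hl dvd_rfl
  | mul a b iha ihb =>
    have hab : Nat.Coprime a b := Nat.coprime_of_squarefree_mul hm
    obtain ⟨x, hx⟩ := iha (hm.squarefree_of_dvd (Dvd.intro b rfl)) (fun l hl hla => h l hl (hla.mul_right b))
    obtain ⟨y, hy⟩ := ihb (hm.squarefree_of_dvd (Dvd.intro_left a rfl)) (fun l hl hlb => h l hl (hlb.mul_left a))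
    let e := ZMod.chineseRemainder hab
    refine ⟨e.symm (x, y), e.injective ?_⟩
    rw [map_pow, RingEquiv.apply_symm_apply, map_natCast]
    exact Prod.ext hx hy

end Pool.Agent.T9h70.BF
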