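import Pool.Agent.T9h30.PG.Twr
import Pool.Agent.T9h30.BF.Spec2

/-!
# Piece SPL of `Pool/Agent/T9h30/BF/Spec2.lean`

The sections `frob`, `nb`, `emb` are those of helper30 in `Pool/Agent/T9h30/PG/Red.lean` and
`Pool/Agent/T9h30/PG/Den.lean` (copied, to avoid the long list of files imported there).
-/

set_option autoImplicit false
set_option linter.unusedSectionVars false

namespace Pool.Agent.T9h70.BF

open NumberField IsDedekindDomain WithZero Filter Topology MonoidWithZeroHom
open Pool.Agent.T9h30.BT Pool.Agent.T9h30.PG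

section frob


lemma prod_card {k : Type} [Field k] [Fintype k] :
    ∏ r : k, (Polynomial.X - Polynomial.C r) = Polynomial.X ^ Fintype.card k - Polynomial.X := by
  classical
  have h1 := FiniteField.roots_X_pow_card_sub_X k
  have h2 : (Polynomial.X ^ Fintype.card k - Polynomial.X : Polynomial k).natDegree =
      Fintype.card k := FiniteField.X_pow_card_sub_X_natDegree_eq k Fintype.one_lt_card
  have h3 : (Polynomial.X ^ Fintype.card k - Polynomial.X : Polynomial k).Monic := by
    refine Polynomial.monic_X_pow_sub ?_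
    rw [Polynomial.degree_X]
    exact_mod_cast Fintype.one_lt_card
  have h4 := Polynomial.prod_multiset_X_sub_C_of_monic_of_roots_card_eq h3 (by
    rw [h1, h2]
    rfl)
  rw [h1] at h4
  exact h4

/-- the elements fixed by the Frobenius map -/
lemma frob_fix {k R : Type} [Field k] [Finite k] [Field R] (f : k →+* R) {z : R}
    (hz : z ^ Nat.card k = z) : ∃ x, f x = z := by
  let _ : Fintype k := Fintype.ofFinite k
  have h1 := congrArg (Polynomial.eval₂ f z) (prod_card (k := k))
  rw [Polynomial.eval₂_finsetProd, Polynomial.eval₂_sub, Polynomial.eval₂_pow,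
    Polynomial.eval₂_X, ← Nat.card_eq_fintype_card, hz, sub_self, Finset.prod_eq_zero_iff] at h1
  obtain ⟨x, -, hx⟩ := h1
  rw [Polynomial.eval₂_sub, Polynomial.eval₂_X, Polynomial.eval₂_C, sub_eq_zero] at hx
  exact ⟨x, hx.symm⟩


end frob

section nb

variable {K : Type} [Field K] [NumberField K]

/-- neighbourhoods in the topology of a place -/
lemma nb_iff (v : HeightOneSpectrum (𝓞 K)) (x : WithVal (v.valuation K))
    (s : Set (WithVal (v.valuation K))) : s ∈ 𝓝 x ↔
      ∃ n : ℕ, ∀ y : WithVal (v.valuation K),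
        v.valuation K (WithVal.ofVal (y - x)) < exp (-(n : ℤ)) → y ∈ s := by
  rw [Valued.mem_nhds]
  constructor
  · rintro ⟨γ, hγ⟩
    have hg : ValueGroup₀.embedding γ.1 ≠ 0 := by
      rw [Ne, map_eq_zero]
      exact γ.ne_zero
    obtain ⟨n, hn, -⟩ := exists_exp_neg_natCast_lt_and_lt hg hg
    refine ⟨n, fun y hy => hγ ?_⟩
    show (Valued.v (R := WithVal (v.valuation K))).restrict (y - x) < γ
    rw [Valuation.restrict_lt_iff_lt_embedding]
    exact hy.trans hn
  · rintro ⟨n, hn⟩
    obtain ⟨π, hπ⟩ := v.valuation_exists_uniformizer K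
    have hπ0 : π ≠ 0 := by
      rintro rfl
      rw [map_zero] at hπ
      exact exp_ne_zero hπ.symm
    have hne : (Valued.v (R := WithVal (v.valuation K))).restrict
        (WithVal.toVal (v.valuation K) (π ^ n)) ≠ 0 := by
      rw [Valuation.ne_zero_iff]
      intro h
      exact pow_ne_zero n hπ0 ((WithVal.toVal_eq_zero _ _).1 h)
    refine ⟨Units.mk0 _ hne, fun y hy => hn y ?_⟩
    have hy' : Valued.v (y - x) < Valued.v (WithVal.toVal (v.valuation K) (π ^ n)) :=
      (Valuation.restrict_lt_iff _).1 hy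
    have h1 : Valued.v (WithVal.toVal (v.valuation K) (π ^ n)) = exp (-(n : ℤ)) := by
      show v.valuation K (π ^ n) = _
      rw [map_pow, hπ, ← exp_nsmul]
      congr 1
      simp
    rw [h1] at hy'
    exact hy'

end nb

section emb

variable {K F : Type} [Field K] [NumberField K] [Field F] [NumberField F] [Algebra K F]
  {u : HeightOneSpectrum (𝓞 F)}

variable (K) in
/-- the map of the fields with the topologies -/
noncomputable def iv (u : HeightOneSpectrum (𝓞 F)) :
    WithVal ((lo (K := K) u).valuation K) →+* WithVal (u.valuation F) :=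
  (WithVal.equiv (u.valuation F)).symm.toRingHom.comp
    ((algebraMap K F).comp (WithVal.equiv ((lo (K := K) u).valuation K)).toRingHom)

lemma iv_val (hval : ∀ x : K, u.valuation F (algebraMap K F x) = (lo (K := K) u).valuation K x)
    (x y : WithVal ((lo (K := K) u).valuation K)) :
    u.valuation F (WithVal.ofVal (iv K u y - iv K u x)) =
      (lo (K := K) u).valuation K (WithVal.ofVal (y - x)) := by
  rw [← map_sub]
  exact hval _

lemma iv_ind (hval : ∀ x : K, u.valuation F (algebraMap K F x) = (lo (K := K) u).valuation K x) :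
    IsUniformInducing (iv K u) := by
  have h1 : IsInducing (iv K u) := by
    rw [isInducing_iff_nhds]
    intro x
    ext s
    rw [mem_comap, nb_iff]
    constructor
    · rintro ⟨n, hn⟩
      refine ⟨{z | u.valuation F (WithVal.ofVal (z - iv K u x)) < exp (-(n : ℤ))}, ?_, fun y hy => ?_⟩
      · rw [nb_iff]
        exact ⟨n, fun y hy => hy⟩
      · refine hn y ?_
        rw [← iv_val hval]
        exact hy
    · rintro ⟨t, ht, hts⟩
      rw [nb_iff] at ht
      obtain ⟨n, hn⟩ := ht
      refine ⟨n, fun y hy => hts (hn _ ?_)⟩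
      rw [iv_val hval]
      exact hy
  exact AddMonoidHom.isUniformInducing_of_isInducing (f := (iv K u).toAddMonoidHom) h1

/-- the approximation by elements of `K` -/
lemma approx (hval : ∀ x : K, u.valuation F (algebraMap K F x) = (lo (K := K) u).valuation K x)
    (hres : ∀ x : 𝓞 F, ∃ y : 𝓞 K, x - algebraMap (𝓞 K) (𝓞 F) y ∈ u.asIdeal) (n : ℕ) (x : F) :
    ∃ y : K, u.valuation F (x - algebraMap K F y) ≤ exp (-(n : ℤ)) := by
  obtain ⟨π, hπ⟩ := (lo (K := K) u).valuation_exists_uniformizer K
  have hπ0 : π ≠ 0 := by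
    rintro rfl
    rw [map_zero] at hπ
    exact exp_ne_zero hπ.symm
  have hπF : algebraMap K F π ≠ 0 := by
    rw [Ne, map_eq_zero]
    exact hπ0
  have hπu : u.valuation F (algebraMap K F π) = exp (-1) := by rw [hval, hπ]
  -- integral elements
  have key : ∀ (n : ℕ) (x : F), u.valuation F x ≤ 1 →
      ∃ y : K, u.valuation F (x - algebraMap K F y) ≤ exp (-(n : ℤ)) := by
    intro n
    induction n with
    | zero =>
      intro x hx
      refine ⟨0, ?_⟩
      rw [map_zero, sub_zero]
      simpa using hx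
    | succ n ih =>
      intro x hx
      obtain ⟨a, ha⟩ := u.exists_valuation_sub_lt_of_integer (K := F) hx 1
      obtain ⟨y₀, hy₀⟩ := hres a
      have h1 : u.valuation F (x - algebraMap K F (y₀ : K)) < 1 := by
        have e : x - algebraMap K F (y₀ : K) = (x - algebraMap (𝓞 F) F a) +
            algebraMap (𝓞 F) F (a - algebraMap (𝓞 K) (𝓞 F) y₀) := by
          rw [map_sub, ← IsScalarTower.algebraMap_apply (𝓞 K) (𝓞 F) F,
            IsScalarTower.algebraMap_apply (𝓞 K) K F]
          ring
        rw [e]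
        refine Valuation.map_add_lt _ ?_ ?_
        · rw [Valuation.map_sub_swap]
          exact ha
        · exact (u.valuation_lt_one_iff_mem _).2 hy₀
      have h2 : u.valuation F ((x - algebraMap K F (y₀ : K)) / algebraMap K F π) ≤ 1 := by
        rw [map_div₀, hπu]
        have h3 : u.valuation F (x - algebraMap K F (y₀ : K)) ≤ exp (-1) := by
          rcases eq_or_ne (u.valuation F (x - algebraMap K F (y₀ : K))) 0 with h0 | h0
          · rw [h0]
            exact zero_le
          · rw [← exp_log h0] at h1 ⊢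
            rw [← exp_zero, exp_lt_exp] at h1
            rw [exp_le_exp]
            omega
        exact div_le_one_of_le₀ h3 zero_le
      obtain ⟨y₁, hy₁⟩ := ih _ h2
      refine ⟨y₀ + π * y₁, ?_⟩
      have e : x - algebraMap K F (y₀ + π * y₁) = algebraMap K F π *
          ((x - algebraMap K F (y₀ : K)) / algebraMap K F π - algebraMap K F y₁) := by
        rw [map_add, map_mul]
        field_simp
        ring
      rw [e, map_mul, hπu]
      calc exp (-1) * u.valuation F ((x - algebraMap K F (y₀ : K)) / algebraMap K F π -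
            algebraMap K F y₁) ≤ exp (-1) * exp (-(n : ℤ)) := mul_le_mul' le_rfl hy₁
        _ = exp (-((n + 1 : ℕ) : ℤ)) := by
          rw [← exp_add]
          congr 1
          push_cast
          ring
  -- general elements
  rcases eq_or_ne (u.valuation F x) 0 with h0 | h0
  · refine ⟨0, ?_⟩
    rw [map_zero, sub_zero, h0]
    exact zero_le
  obtain ⟨m, hm⟩ : ∃ m : ℕ, u.valuation F (x * algebraMap K F π ^ m) ≤ 1 := by
    refine ⟨(log (u.valuation F x)).toNat, ?_⟩
    rw [map_mul, map_pow, hπu, ← exp_log h0, ← exp_nsmul, ← exp_add, ← exp_zero, exp_le_exp,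
      log_exp]
    have := Int.self_le_toNat (log (u.valuation F x))
    simp only [smul_neg, nsmul_eq_mul, mul_one]
    omega
  obtain ⟨y, hy⟩ := key (n + m) _ hm
  refine ⟨y / π ^ m, ?_⟩
  have e : x - algebraMap K F (y / π ^ m) = (x * algebraMap K F π ^ m - algebraMap K F y) /
      algebraMap K F π ^ m := by
    rw [map_div₀, map_pow]
    field_simp
  rw [e, map_div₀, map_pow, hπu]
  have h1 : (exp (-1 : ℤ) : ℤᵐ⁰) ^ m = exp (-(m : ℤ)) := by
    rw [← exp_nsmul]
    congr 1
    simp
  rw [h1, div_le_iff₀ (by exact exp_pos), ← exp_add]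
  refine hy.trans ?_
  rw [exp_le_exp]
  push_cast
  omega

lemma iv_dense (hval : ∀ x : K, u.valuation F (algebraMap K F x) = (lo (K := K) u).valuation K x)
    (hres : ∀ x : 𝓞 F, ∃ y : 𝓞 K, x - algebraMap (𝓞 K) (𝓞 F) y ∈ u.asIdeal) :
    DenseRange (iv K u) := by
  intro x
  rw [mem_closure_iff_nhds]
  intro s hs
  rw [nb_iff] at hs
  obtain ⟨n, hn⟩ := hs
  obtain ⟨y, hy⟩ := approx hval hres (n + 1) (WithVal.ofVal x)
  refine ⟨iv K u (WithVal.toVal _ y), hn _ ?_, ⟨_, rfl⟩⟩
  have h1 : u.valuation F (WithVal.ofVal (iv K u (WithVal.toVal _ y) - x)) =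
      u.valuation F (WithVal.ofVal x - algebraMap K F y) := Valuation.map_sub_swap _ _ _
  rw [h1]
  refine hy.trans_lt ?_
  rw [exp_lt_exp]
  push_cast
  omega

/-- **Embeddings in the completion.** -/
theorem emb_of (hval : ∀ x : K, u.valuation F (algebraMap K F x) = (lo (K := K) u).valuation K x)
    (hres : ∀ x : 𝓞 F, ∃ y : 𝓞 K, x - algebraMap (𝓞 K) (𝓞 F) y ∈ u.asIdeal) :
    Nonempty (F →ₐ[K] (lo (K := K) u).adicCompletion K) := by
  set v := lo (K := K) u with hv
  let f : WithVal (v.valuation K) →+* v.adicCompletion K :=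
    (HeightOneSpectrum.adicCompletion.equiv K v).symm.toRingHom.comp
      (UniformSpace.Completion.coeRingHom)
  have hf : UniformContinuous f := by
    rw [(HeightOneSpectrum.adicCompletion.isUniformInducing_toCompletion K v).uniformContinuous_iff]
    exact UniformSpace.Completion.uniformContinuous_coe _
  let g : WithVal (u.valuation F) →+* v.adicCompletion K :=
    IsDenseInducing.extendRingHom (iv_ind hval) (iv_dense hval hres) hf
  have hg : ∀ x, g (iv K u x) = f x := fun x =>
    IsDenseInducing.extend_eq ((iv_ind hval).isDenseInducing (iv_dense hval hres)) hf.continuous x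
  refine ⟨{ toRingHom := g.comp (WithVal.equiv (u.valuation F)).symm.toRingHom, commutes' := ?_ }⟩
  intro x
  exact hg (WithVal.toVal _ x)

variable [IsGalois K F]

/-- **Places with trivial inertia group and trivial Frobenius automorphism.** -/
theorem emb_frb (hin : ∀ t ∈ In (K := K) u, t = 1) (hfr : Frb (K := K) u (1 : F ≃ₐ[K] F)) :
    Nonempty (F →ₐ[K] (lo (K := K) u).adicCompletion K) := by
  set v := lo (K := K) u with hv
  have hmax : v.asIdeal.IsMaximal := v.isMaximal
  have hmax' : u.asIdeal.IsMaximal := u.isMaximal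
  refine emb_of (fun x => ?_) fun x => ?_
  · have h1 := card_one hin
    rw [card_In] at h1
    have h2 := HeightOneSpectrum.valuation_liesOver F v u x
    rw [Ideal.ramificationIdx'_eq_ramificationIdx, h1, pow_one] at h2
    · exact h2.symm
    · exact v.ne_bot
  · have hfin : Finite (𝓞 K ⧸ v.asIdeal) := Ideal.finiteQuotientOfFreeOfNeBot _ v.ne_bot
    let _ : Field (𝓞 K ⧸ v.asIdeal) := Ideal.Quotient.field _
    let _ : Field (𝓞 F ⧸ u.asIdeal) := Ideal.Quotient.field _
    let f : 𝓞 K ⧸ v.asIdeal →+* 𝓞 F ⧸ u.asIdeal :=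
      Ideal.quotientMap u.asIdeal (algebraMap (𝓞 K) (𝓞 F)) (fun x hx => mem_lo.1 hx)
    obtain ⟨y, hy⟩ := frob_fix f (z := Ideal.Quotient.mk u.asIdeal x) (by
      rw [← map_pow, Ideal.Quotient.eq]
      have h1 := hfr x
      rw [one_smul] at h1
      have h2 := u.asIdeal.neg_mem h1
      rwa [neg_sub] at h2)
    obtain ⟨y, rfl⟩ := Ideal.Quotient.mk_surjective y
    refine ⟨y, ?_⟩
    rw [← Ideal.Quotient.eq, ← hy]
    rfl

end emb


section spl

variable {K F : Type} [Field K] [NumberField K] [Field F] [NumberField F] [Algebra K F]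
  {m : ℕ} [NeZero m] [IsGalois K F]

/-- inertia in subfields of cyclotomic extensions -/
theorem in_cyc (C : Type) [Field C] [NumberField C] [Algebra K C] [Algebra F C]
    [IsScalarTower K F C] [IsCyclotomicExtension {m} K C] [IsGalois K C]
    {u : HeightOneSpectrum (𝓞 F)} (h : (m : 𝓞 K) ∉ (lo (K := K) u).asIdeal) :
    ∀ t ∈ In (K := K) u, t = 1 := by
  obtain ⟨⟨w, hw⟩⟩ := exists_ab (F := C) u
  have h1 : (m : 𝓞 K) ∉ (lo (K := K) w).asIdeal := by
    rw [← lo_lo (F := F), hw]
    exact h
  have h2 := in_tower (F := F) (w := w) fun t ht => kc_in h1 ht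
  rw [hw] at h2
  exact h2

end spl

/-- (SPL) -/
theorem spl : Pool.Agent.T9h30.BF.StSpl := by
  intro n m _ F C _ _ _ _ _ _ _ hexp v hvm hx
  have hT : IsScalarTower ℚ F C := inferInstance
  have hG : IsGalois ℚ C := IsCyclotomicExtension.isGalois {m} ℚ C
  obtain ⟨x, hx⟩ := hx
  obtain ⟨⟨u, hu⟩⟩ := exists_ab (F := F) v
  subst hu
  obtain ⟨⟨w, hw⟩⟩ := exists_ab (F := C) u
  obtain ⟨s, hs⟩ := exists_frb (K := ℚ) w
  have hlo : lo (K := ℚ) w = lo (K := ℚ) u := by rw [← lo_lo (F := F), hw]
  have h6 := kc_frb (m := m) (C := C) (w := w) (by rw [hlo]; exact hvm) hs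
  rw [hlo, ← hx] at h6
  have h7 : ∃ t : C ≃ₐ[ℚ] C, s = t ^ n := by
    rcases Nat.eq_zero_or_pos n with rfl | hn
    · refine ⟨1, kc_inj ℚ C m (Units.ext ?_)⟩
      rw [h6, pow_zero, pow_zero, map_one, Units.val_one]
    · have hux : IsUnit x := by
        rw [← isUnit_pow_iff hn.ne', ← h6]
        exact Units.isUnit _
      obtain ⟨y, rfl⟩ := hux
      have hirr : Irreducible (Polynomial.cyclotomic m ℚ) :=
        Polynomial.cyclotomic.irreducible_rat (NeZero.pos m)
      have h8 : kc ℚ C m ((IsCyclotomicExtension.autEquivPow C hirr).symm y) = y :=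
        (IsCyclotomicExtension.autEquivPow C hirr).apply_symm_apply y
      refine ⟨(IsCyclotomicExtension.autEquivPow C hirr).symm y, kc_inj ℚ C m (Units.ext ?_)⟩
      rw [h6, map_pow, h8, Units.val_pow_eq_pow_val]
  obtain ⟨t, ht⟩ := h7
  have h10 : AlgEquiv.restrictNormalHom F s = 1 := by
    rw [ht, map_pow, hexp]
  have h11 := res_frb (F := F) hs
  rw [hw] at h11
  have h12 : s.restrictNormal F = 1 := h10
  rw [h12] at h11
  exact emb_frb (in_cyc (m := m) C hvm) h11

end Pool.Agent.T9h70.BF
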